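import Pool.Agent.H.MP_ba88e9_an.E

set_option autoImplicit false

namespace Pool.Agent.Results.MP_ba88e9_an.Counter

open Ordinal

/-- The values `|∑ φ (x i) ψ (y i)|` over functionals of norm at most one. -/
def vals {X : Type*} [NormedAddCommGroup X] [NormedSpace ℝ X] {n : ℕ} (x y : Fin n → X) : Set ℝ :=
  {r | ∃ φ ψ : StrongDual ℝ X, ‖φ‖ ≤ 1 ∧ ‖ψ‖ ≤ 1 ∧ r = |∑ i, φ (x i) * ψ (y i)|}

/-- `Z` with `b x y = x ⊗ y` is the completed injective tensor product of `X` with itself. -/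
def IsInj {X Z : Type*} [NormedAddCommGroup X] [NormedSpace ℝ X] [NormedAddCommGroup Z]
    [NormedSpace ℝ Z] (b : X → X → Z) : Prop :=
  CompleteSpace Z ∧ (∀ x, IsLinearMap ℝ (b x)) ∧ (∀ y, IsLinearMap ℝ fun x => b x y) ∧
    Dense (Submodule.span ℝ {z | ∃ x y, z = b x y} : Set Z) ∧
    ∀ (n : ℕ) (x y : Fin n → X), IsLUB (vals x y) ‖∑ i, b (x i) (y i)‖

/-- `E` embeds isomorphically in `Z`. -/
def Emb (E Z : Type*) [NormedAddCommGroup E] [NormedSpace ℝ E] [NormedAddCommGroup Z]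
    [NormedSpace ℝ Z] : Prop :=
  ∃ (T : E →L[ℝ] Z) (c : ℝ), 0 < c ∧ ∀ x, c * ‖x‖ ≤ ‖T x‖

/-- `E` embeds complementably in `Z`. -/
def Cmp (E Z : Type*) [NormedAddCommGroup E] [NormedSpace ℝ E] [NormedAddCommGroup Z]
    [NormedSpace ℝ Z] : Prop :=
  ∃ (J : E →L[ℝ] Z) (P : Z →L[ℝ] E), ∀ f, P (J f) = f

theorem result (α : Ordinal.{0}) (hα : α.card ≤ Cardinal.aleph0) :
    ∃ (X Z : Type 1) (_ : NormedAddCommGroup X) (_ : NormedSpace ℝ X) (_ : CompleteSpace X)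
      (_ : NormedAddCommGroup Z) (_ : NormedSpace ℝ Z) (b : X → X → Z), IsInj b ∧
      Cmp C(Set.Icc 0 (ω ^ ω ^ α), ℝ) Z ∧
      ¬ Emb C(Set.Icc 0 (ω ^ ω ^ α), ℝ) X ∧ ¬ Emb (ZeroAtInftyContinuousMap ℕ ℝ) X := by
  obtain ⟨X, a, b, c, h, k⟩ := Pool.Agent.H.MP_ba88e9_an.final (ω ^ ω ^ α)
    (left_le_opow _ (opow_pos _ omega0_pos))
    ((card_opow_le _ _).trans (max_le le_rfl (max_le card_omega0.le ((card_opow_le _ _).trans
      (max_le le_rfl (max_le card_omega0.le hα))))))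
  obtain ⟨Z, d, e, f, g, l⟩ := Pool.Agent.H.MP_ba88e9_an.pack h
  exact ⟨X, Z, a, b, c, d, e, f, g, l, k⟩

end Pool.Agent.Results.MP_ba88e9_an.Counter
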